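import Pool.Agent.MP_1246c0_nt.H12.SpecR

/-! Good configurations satisfy the standing hypotheses at each level. -/

namespace Pool.Agent.MP_1246c0_nt.H12

open Finset

namespace OK

variable {ι : Type}

theorem le1 {p : ι → Prop} {s : Finset {l // p l}} {t : Finset ι} (h : ∀ x ∈ s, x.1 ∈ t) :
    s.card ≤ t.card :=
  card_le_card_of_injOn Subtype.val (fun x hx => h x hx) Subtype.val_injective.injOn

theorem le2 {p : ι → Prop} {s : Finset {l // p l}} {t : Finset ι}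
    (h : ∀ l ∈ t, ∃ hl : p l, (⟨l, hl⟩ : {l // p l}) ∈ s) : t.card ≤ s.card := by
  classical
  exact card_le_card_of_surjOn Subtype.val fun l hl => (h l hl).elim fun h1 h2 => ⟨_, h2, rfl⟩

theorem det [Fintype ι] [DecidableEq ι] {lv : ι → ℕ} {e : ι → F2} {B : Finset ι}
    {S0 : Matrix ι ι F2} {tp j0 : ℕ} (hN : Nice lv e B S0 tp j0) (a' : ℕ)
    (w : {l // a' ≤ lv l} → F2) (hw : ∀ l, l.1 ∈ B → w l = 0) (h0 : w ≠ 0) :
    ∃ l : {l // a' ≤ lv l}, l.1 ∈ B ∧ lv l.1 ≠ a' ∧ e l.1 = 0 ∧ ∑ k, S0 l.1 k.1 * w k = 1 := by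
  let W : ι → F2 := fun l => if h : a' ≤ lv l then w ⟨l, h⟩ else 0
  have hW : ∀ k : {l // a' ≤ lv l}, W k.1 = w k := fun k => dif_pos k.2
  obtain ⟨k, hk⟩ := Function.ne_iff.1 h0
  have h1 : a' ≤ tp / 2 := k.2.trans (hN.low k.1 fun h => hk (hw k h))
  obtain ⟨l, hl, h2, h3, h4⟩ := hN.det W (fun l hl => by
    by_cases h : a' ≤ lv l
    · exact (hW ⟨l, h⟩).trans (hw _ hl)
    · exact dif_neg h) fun h => hk ((hW k).symm.trans (congrFun h k.1))
  refine ⟨⟨l, by omega⟩, hl, by show lv l ≠ a'; omega, h3, Eq.trans ?_ h4⟩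
  refine Fintype.sum_of_injective Subtype.val Subtype.val_injective _ _ (fun i hi => ?_)
    fun k => by rw [hW]
  have h5 : W i = 0 := dif_neg fun h => hi ⟨⟨i, h⟩, rfl⟩
  rw [h5, mul_zero]

end OK

open OK in
theorem rowOK : SOK := by
  intro Λ ι _ _ _ st au lv e B S0 S c tp j0 a a' b hN hj ha hab hsym hc hS
  have hle : a' ≤ a := by omega
  refine ⟨⟨fun l hl l' hl' => ?_, fun w w0 hw h => ?_, fun w hw h => ?_, inter_subset_right,
    fun l hl => ?_, fun ε => ?_, ?_, ?_⟩, ?_⟩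
  · have h1 := hsym l.1 (mem_filter.2 ⟨(mem_filter.1 hl).2, l.2⟩) l'.1
      (mem_filter.2 ⟨(mem_filter.1 hl').2, l'.2⟩)
    simp only [Matrix.submatrix_apply, Subtype.ext_iff]
    exact h1
  · have hw' : ∀ l : {l // a' ≤ lv l}, l.1 ∈ B → w l = 0 := fun l hl =>
      hw l (mem_filter.2 ⟨mem_univ _, hl⟩)
    have h0 : w = 0 := by
      by_contra h0
      obtain ⟨l, h1, h2, h3, h4⟩ := det hN a' w hw' h0
      have h5 := h l (mem_filter.2 ⟨mem_univ _, h1⟩) fun h6 => h2 (mem_filter.1 h6).2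
      rw [hc l.1 l.2, h3, mul_zero, add_zero] at h5
      refine one_ne_zero (h4.symm.trans (Eq.trans (sum_congr rfl fun k _ => ?_) h5))
      by_cases hk : k.1 ∈ B
      · rw [hw' k hk, mul_zero, zero_mul]
      · rw [Matrix.submatrix_apply, (hS l.1 h1 k.1 hk l.2 k.2).2, hN.cross l.1 h1 k.1 hk h3,
          mul_comm]
    obtain ⟨q, hq, h1, h2, -⟩ := hN.top
    have h3 : a' ≤ lv q := by omega
    have h4 := h ⟨q, h3⟩ (mem_filter.2 ⟨mem_univ _, hq⟩) fun h5 => by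
      have h6 : lv q = a' := (mem_filter.1 h5).2
      omega
    rw [hc q h3, h2, h0] at h4
    exact ⟨h0, by simpa using h4⟩
  · have hw' : ∀ l : {l // a' ≤ lv l}, l.1 ∈ B → w l = 0 := fun l hl =>
      hw l (mem_filter.2 ⟨mem_univ _, hl⟩)
    by_contra h0
    obtain ⟨l, h1, h2, h3, h4⟩ := det hN a' w hw' h0
    have h5 := h l (mem_filter.2 ⟨mem_univ _, h1⟩) fun h6 => h2 (mem_filter.1 h6).2
    refine one_ne_zero (h4.symm.trans (Eq.trans (sum_congr rfl fun k _ => ?_) h5))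
    by_cases hk : k.1 ∈ B
    · rw [hw' k hk, mul_zero, mul_zero]
    · rw [Matrix.submatrix_apply, (hS l.1 h1 k.1 hk l.2 k.2).1]
  · have h1 : lv l.1 = a := (mem_filter.1 (mem_inter.1 hl).1).2
    rw [mem_filter, h1, hab]
    cases b <;> simp
  · refine (hN.cnt a ha ε).1.trans (le2 fun l hl => ?_)
    obtain ⟨h1, h2, h3⟩ := mem_filter.1 hl
    have h4 : a' ≤ lv l := by omega
    exact ⟨h4, mem_filter.2 ⟨mem_inter.2 ⟨mem_filter.2 ⟨mem_univ _, h2⟩,
      mem_filter.2 ⟨mem_univ _, h1⟩⟩, (hc l h4).trans h3⟩⟩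
  · have h0 : 2 ^ jj tp j0 a ≤ 2 ^ jj tp j0 a' :=
      Nat.pow_le_pow_right two_pos (by unfold jj; omega)
    refine h0.trans ((hN.cnt a' (hle.trans ha) 0).1.trans (le2 fun l hl => ?_))
    obtain ⟨h1, h2, -⟩ := mem_filter.1 hl
    exact ⟨h2.ge, mem_inter.2 ⟨mem_filter.2 ⟨mem_univ _, h2⟩, mem_filter.2 ⟨mem_univ _, h1⟩⟩⟩
  · split_ifs with h
    · refine (le1 fun l hl => ?_).trans hN.sml
      exact mem_compl.2 fun h1 => mem_compl.1 hl (mem_filter.2 ⟨mem_univ _, h1⟩)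
    · refine (card_eq_zero.2 (eq_empty_of_forall_notMem fun l hl => h ?_)).le
      exact l.2.trans (hN.low l.1 fun h1 => mem_compl.1 hl (mem_filter.2 ⟨mem_univ _, h1⟩))
  · have h1 := (hN.cnt a ha 0).2
    have h2 := (hN.cnt a ha 1).2
    have h3 := card_union_le (B.filter fun l => lv l = a ∧ e l = 0)
      (B.filter fun l => lv l = a ∧ e l = 1)
    have h4 : 2 ^ (2 * jj tp j0 a + 1) ≤ xx tp j0 a ^ 11 := by
      rw [xx, ← pow_mul]
      exact Nat.pow_le_pow_right two_pos (by unfold jj; omega)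
    refine (le1 (t := (B.filter fun l => lv l = a ∧ e l = 0) ∪
      B.filter fun l => lv l = a ∧ e l = 1) fun l hl => ?_).trans (by omega)
    have h5 : lv l.1 = a := (mem_filter.1 (mem_inter.1 hl).1).2
    have h6 : l.1 ∈ B := (mem_filter.1 (mem_inter.1 hl).2).2
    have h7 : ∀ x : F2, x = 0 ∨ x = 1 := by decide
    exact mem_union.2 ((h7 (e l.1)).imp (fun h => mem_filter.2 ⟨h6, h5, h⟩)
      fun h => mem_filter.2 ⟨h6, h5, h⟩)

end Pool.Agent.MP_1246c0_nt.H12
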