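import Pool.Agent.MP_1246c0_nt.H55.SpecC

/-! Binary cubic forms in the cusp of the fundamental domain. -/

namespace Pool.Agent.MP_1246c0_nt.H16

open Pool.Agent.MP_1246c0_nt.H55

theorem ev_mkF (p q u v x y : ℝ) :
    ev (mkF p q u v) x y = (p * x + q * y) * ((x - u * y) ^ 2 + v ^ 2 * y ^ 2) := by
  simp only [ev, mkF, Matrix.cons_val_zero, Matrix.cons_val_one, Matrix.cons_val]
  ring

theorem act_mkF (p q u v k : ℝ) : act (mkF p q u v) 1 k 0 1 = mkF p (q + p * k) (u - k) v := by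
  funext i
  fin_cases i <;> simp [ev, act, mkF] <;> ring

theorem mkF_inj {p q u v p' q' u' v' : ℝ} (hp : 0 < p) (hv : 0 < v')
    (e : mkF p q u v = mkF p' q' u' v') : u = u' := by
  have h0 : p = p' := by simpa [mkF] using congrFun e 0
  subst h0
  have h1 : (q - 2 * u * p) / 3 = (q' - 2 * u' * p) / 3 := by simpa [mkF] using congrFun e 1
  have h2 := congrArg (fun f => ev f (-q) p) e
  simp only [ev_mkF] at h2
  have h3 : 0 < (-q - u' * p) ^ 2 + v' ^ 2 * p ^ 2 := by positivity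
  have h4 : p * -q + q' * p = 0 := by
    refine (mul_eq_zero.1 ?_).resolve_right h3.ne'
    rw [← h2]
    ring
  have h5 : q' = q := by
    refine mul_left_cancel₀ hp.ne' ?_
    linarith
  refine mul_left_cancel₀ hp.ne' ?_
  rw [h5] at h1
  linarith

/-- the integers of absolute value at most `B` -/
noncomputable def iv (B : ℝ) : Finset ℤ := Finset.Icc (-⌊B⌋) ⌊B⌋

theorem mem_iv {B : ℝ} {z : ℤ} (h : |(z : ℝ)| ≤ B) : z ∈ iv B := by
  rw [abs_le] at h
  refine Finset.mem_Icc.2 ⟨neg_le.1 (Int.le_floor.2 ?_), Int.le_floor.2 h.2⟩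
  push_cast
  linarith [h.1]

theorem card_iv {B : ℝ} (h : 1 ≤ B) : ((iv B).card : ℝ) ≤ 3 * B := by
  have h0 : 0 ≤ ⌊B⌋ := Int.floor_nonneg.2 (by linarith)
  have h1 : ((iv B).card : ℤ) = 2 * ⌊B⌋ + 1 := by
    rw [iv, Int.card_Icc, Int.toNat_of_nonneg (by omega)]
    ring
  have h2 : ((iv B).card : ℝ) = 2 * (⌊B⌋ : ℝ) + 1 := by exact_mod_cast h1
  linarith [Int.floor_le B]

theorem bounds {p q u v A V : ℝ} (hV : 1 ≤ V) (hp : 0 ≤ p) (hA : p ≤ A) (hw : |p * u + q| ≤ A * V)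
    (hu : |u| ≤ 5 * V) (hv : 0 ≤ v) (hv' : v ≤ 2 * V) (i : Fin 4) :
    |mkF p q u v i| ≤ ![A, 6 * A * V, 30 * A * V ^ 2, 174 * A * V ^ 3] i := by
  have hA0 : 0 ≤ A := hp.trans hA
  have hV0 : 0 ≤ V := by linarith
  have h1 : |p * u| ≤ A * (5 * V) := by
    rw [abs_mul, abs_of_nonneg hp]
    exact mul_le_mul hA hu (abs_nonneg _) hA0
  have h2 : u ^ 2 ≤ (5 * V) ^ 2 := sq_le_sq' (abs_le.1 hu).1 (abs_le.1 hu).2
  have h3 : v ^ 2 ≤ (2 * V) ^ 2 := pow_le_pow_left₀ hv hv' 2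
  have h4 : |q| ≤ 6 * A * V := by
    rw [abs_le] at h1 hw ⊢
    constructor <;> linarith [h1.1, h1.2, hw.1, hw.2]
  have h5 : |u * (p * u + q)| ≤ 5 * V * (A * V) := by
    rw [abs_mul]
    exact mul_le_mul hu hw (abs_nonneg _) (by positivity)
  have h6 : p * u ^ 2 ≤ A * (5 * V) ^ 2 := mul_le_mul hA h2 (sq_nonneg _) hA0
  have h7 : p * v ^ 2 ≤ A * (2 * V) ^ 2 := mul_le_mul hA h3 (sq_nonneg _) hA0
  have h8 : 0 ≤ p * u ^ 2 := by positivity
  have h9 : 0 ≤ p * v ^ 2 := by positivity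
  have h10 : 0 ≤ A * V := by positivity
  have h11 : 0 ≤ A * V ^ 2 := by positivity
  fin_cases i
  · simpa [mkF, abs_of_nonneg hp] using hA
  · change |(q - 2 * u * p) / 3| ≤ 6 * A * V
    rw [abs_le] at h1 hw ⊢
    constructor <;> linarith [h1.1, h1.2, hw.1, hw.2]
  · change |(p * (u ^ 2 + v ^ 2) - 2 * u * q) / 3| ≤ 30 * A * V ^ 2
    rw [abs_le] at h5 ⊢
    constructor <;> nlinarith [h5.1, h5.2]
  · change |q * (u ^ 2 + v ^ 2)| ≤ 174 * A * V ^ 3
    rw [abs_mul, abs_of_nonneg (by positivity : 0 ≤ u ^ 2 + v ^ 2)]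
    calc |q| * (u ^ 2 + v ^ 2) ≤ 6 * A * V * ((5 * V) ^ 2 + (2 * V) ^ 2) :=
          mul_le_mul h4 (add_le_add h2 h3) (by positivity) (by positivity)
      _ = 174 * A * V ^ 3 := by ring

theorem dy (V X : ℝ) (S : Finset (Fm ℤ)) (hV : 1 ≤ V) (hX : 0 < X)
    (hS : ∀ f ∈ S, (dsc f : ℤ) ≤ X ∧ ∃ p q u v : ℝ, 1 ≤ p ∧ |u| ≤ 1 / 2 ∧ V ≤ v ∧ v ≤ 2 * V ∧
      cst ℝ f = mkF p q u v) : S.card * V ≤ 17758440 * X := by
  classical
  rcases S.eq_empty_or_nonempty with rfl | ⟨f0, hf0⟩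
  · simp only [Finset.card_empty, Nat.cast_zero, zero_mul]
    positivity
  have hV0 : 0 < V := by linarith
  obtain ⟨A, hA0, hA⟩ : ∃ A : ℝ, 0 ≤ A ∧ A ^ 4 * V ^ 6 = 7 * X := by
    refine ⟨√(√(7 * X / V ^ 6)), Real.sqrt_nonneg _, ?_⟩
    rw [show 4 = 2 * 2 from rfl, pow_mul, Real.sq_sqrt (Real.sqrt_nonneg _),
      Real.sq_sqrt (by positivity)]
    field_simp
  have key : ∀ f ∈ S, ∃ p q u v : ℝ, 1 ≤ p ∧ |u| ≤ 1 / 2 ∧ V ≤ v ∧ v ≤ 2 * V ∧
      cst ℝ f = mkF p q u v ∧ p ≤ A ∧ |p * u + q| ≤ A * V := by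
    intro f hf
    obtain ⟨hd, p, q, u, v, h1, h2, h3, h4, h5⟩ := hS f hf
    have e := dsc_mkF p q u v
    rw [← h5, dsc_cst] at e
    have hv2 : V ^ 2 ≤ v ^ 2 := pow_le_pow_left₀ hV0.le h3 2
    have hN : (p * u + q) ^ 2 + p ^ 2 * v ^ 2 ≤ A ^ 2 * V ^ 2 := by
      refine (pow_le_pow_iff_left₀ (by positivity) (by positivity) two_ne_zero).1 ?_
      refine le_of_mul_le_mul_left ?_ (pow_pos hV0 2)
      have := mul_le_mul_of_nonneg_right hv2 (sq_nonneg ((p * u + q) ^ 2 + p ^ 2 * v ^ 2))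
      rw [show V ^ 2 * (A ^ 2 * V ^ 2) ^ 2 = A ^ 4 * V ^ 6 by ring, hA]
      linarith
    have hpv : p ^ 2 * V ^ 2 ≤ p ^ 2 * v ^ 2 := mul_le_mul_of_nonneg_left hv2 (sq_nonneg _)
    refine ⟨p, q, u, v, h1, h2, h3, h4, h5, ?_, ?_⟩
    · refine (pow_le_pow_iff_left₀ (by linarith) hA0 two_ne_zero).1 ?_
      refine le_of_mul_le_mul_right ?_ (pow_pos hV0 2)
      linarith [sq_nonneg (p * u + q)]
    · refine abs_le_of_sq_le_sq' ?_ (by positivity) |> abs_le.2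
      have : 0 ≤ p ^ 2 * V ^ 2 := by positivity
      rw [mul_pow]
      linarith
  have hA1 : 1 ≤ A := by
    obtain ⟨p, q, u, v, h1, -, -, -, -, h6, -⟩ := key f0 hf0
    exact h1.trans h6
  have tr : ∀ (f : Fm ℤ) (j : ℕ) (p q u v : ℝ), cst ℝ f = mkF p q u v →
      cst ℝ (act f 1 (2 * j) 0 1) = mkF p (q + p * (2 * j)) (u - 2 * j) v := by
    intro f j p q u v e
    rw [cst_act, e, ← act_mkF]
    push_cast
    rfl
  have hc : (S ×ˢ Finset.range ⌈V⌉₊).card ≤ (Fintype.piFinset fun i : Fin 4 =>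
      iv (![A, 6 * A * V, 30 * A * V ^ 2, 174 * A * V ^ 3] i)).card := by
    refine Finset.card_le_card_of_injOn (fun x => act x.1 1 (2 * x.2) 0 1) ?_ ?_
    · rintro ⟨f, j⟩ hx
      obtain ⟨hf, hj⟩ := Finset.mem_product.1 (Finset.mem_coe.1 hx)
      obtain ⟨p, q, u, v, h1, h2, h3, h4, h5, h6, h7⟩ := key f hf
      have hj' : (j : ℝ) < V := Nat.lt_ceil.1 (Finset.mem_range.1 hj)
      have hj0 : (0 : ℝ) ≤ j := Nat.cast_nonneg j
      refine Finset.mem_coe.2 (Fintype.mem_piFinset.2 fun i => mem_iv ?_)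
      have := bounds (p := p) (q := q + p * (2 * j)) (u := u - 2 * j) (v := v) hV (by linarith) h6
        (by rwa [show p * (u - 2 * j) + (q + p * (2 * j)) = p * u + q by ring])
        (by rw [abs_le] at h2 ⊢; constructor <;> linarith [h2.1, h2.2]) (by linarith) h4 i
      rwa [← tr f j p q u v h5] at this
    · rintro ⟨f, j⟩ hx ⟨g, k⟩ hy e
      obtain ⟨p, q, u, v, h1, h2, h3, h4, h5, -, -⟩ :=
        key f (Finset.mem_product.1 (Finset.mem_coe.1 hx)).1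
      obtain ⟨p', q', u', v', k1, k2, k3, k4, k5, -, -⟩ :=
        key g (Finset.mem_product.1 (Finset.mem_coe.1 hy)).1
      have e' : act f 1 (2 * j) 0 1 = act g 1 (2 * k) 0 1 := e
      have e2 := mkF_inj (by linarith) (by linarith)
        ((tr f j p q u v h5).symm.trans ((congrArg (cst ℝ) e').trans (tr g k p' q' u' v' k5)))
      rw [abs_le] at h2 k2
      have l1 : (j : ℝ) < k + 1 := by linarith [h2.1, h2.2, k2.1, k2.2]
      have l2 : (k : ℝ) < j + 1 := by linarith [h2.1, h2.2, k2.1, k2.2]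
      have l3 : j < k + 1 := by exact_mod_cast l1
      have l4 : k < j + 1 := by exact_mod_cast l2
      obtain rfl : j = k := by omega
      have e3 := congrArg (fun h => act h 1 (-(2 * j : ℤ)) 0 1) e'
      simp only [act_act, mul_zero, mul_one, add_zero, zero_add, one_mul, zero_mul,
        neg_add_cancel, act_one] at e3
      rw [e3]
  rw [Finset.card_product, Finset.card_range, Fintype.card_piFinset] at hc
  have hc' : (S.card : ℝ) * ⌈V⌉₊ ≤ ∏ i : Fin 4,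
      ((iv (![A, 6 * A * V, 30 * A * V ^ 2, 174 * A * V ^ 3] i)).card : ℝ) := by exact_mod_cast hc
  have b1 : 1 ≤ A * V := one_le_mul_of_one_le_of_one_le hA1 hV
  have b2 : 1 ≤ A * V ^ 2 := one_le_mul_of_one_le_of_one_le hA1 (one_le_pow₀ hV)
  have b3 : 1 ≤ A * V ^ 3 := one_le_mul_of_one_le_of_one_le hA1 (one_le_pow₀ hV)
  calc (S.card : ℝ) * V ≤ S.card * ⌈V⌉₊ :=
        mul_le_mul_of_nonneg_left (Nat.le_ceil V) (Nat.cast_nonneg _)
    _ ≤ _ := hc'
    _ ≤ ∏ i : Fin 4, 3 * ![A, 6 * A * V, 30 * A * V ^ 2, 174 * A * V ^ 3] i := by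
        refine Finset.prod_le_prod (fun _ _ => Nat.cast_nonneg _) fun i _ => card_iv ?_
        fin_cases i
        · exact hA1
        · change 1 ≤ 6 * A * V
          linarith
        · change 1 ≤ 30 * A * V ^ 2
          linarith
        · change 1 ≤ 174 * A * V ^ 3
          linarith
    _ = 2536920 * (A ^ 4 * V ^ 6) := by
        simp only [Fin.prod_univ_four, Matrix.cons_val_zero, Matrix.cons_val_one, Matrix.cons_val]
        ring
    _ = _ := by rw [hA]; ring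

theorem rowCUSP : RowCUSP := by
  classical
  refine ⟨2 * 17758440, fun T X S hT hX hS => ?_⟩
  have hT0 : 0 < T := by linarith
  have h : ∀ f ∈ S, ∃ i : ℕ, (dsc f : ℤ) ≤ X ∧ ∃ p q u v : ℝ, 1 ≤ p ∧ |u| ≤ 1 / 2 ∧
      2 ^ i * T ≤ v ∧ v ≤ 2 * (2 ^ i * T) ∧ cst ℝ f = mkF p q u v := by
    intro f hf
    obtain ⟨hd, p, q, u, v, h1, h2, h3, h4⟩ := hS f hf
    obtain ⟨i, k1, k2⟩ := exists_nat_pow_near ((one_le_div hT0).2 h3) (one_lt_two (α := ℝ))
    rw [le_div_iff₀ hT0] at k1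
    rw [div_lt_iff₀ hT0, pow_succ] at k2
    exact ⟨i, hd, p, q, u, v, h1, h2, k1, by linarith, h4⟩
  choose! i hi using h
  have h1 : ∀ k : ℕ, ((S.filter fun f => i f = k).card : ℝ) * T ≤ 17758440 * X * (1 / 2) ^ k := by
    intro k
    have := dy (2 ^ k * T) X (S.filter fun f => i f = k)
      (one_le_mul_of_one_le_of_one_le (one_le_pow₀ one_le_two) hT) hX fun f hf => by
        obtain ⟨a, b⟩ := Finset.mem_filter.1 hf
        rw [← b]
        exact hi f a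
    rw [one_div, inv_pow, ← div_eq_mul_inv, le_div_iff₀ (by positivity)]
    linarith
  rw [Finset.card_eq_sum_card_image i S]
  push_cast
  rw [Finset.sum_mul]
  refine (Finset.sum_le_sum fun k _ => h1 k).trans ?_
  rw [← Finset.mul_sum]
  have h2 := sum_le_hasSum (S.image i) (fun k _ => by positivity) hasSum_geometric_two
  nlinarith

end Pool.Agent.MP_1246c0_nt.H16
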