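import Pool.Agent.MP_1246c0_nt.H55.SpecA

/-! The filtration of the multiplicative group of the `3`-adic numbers. -/

namespace Pool.Agent.MP_1246c0_nt.H16

open Pool.Agent.MP_1246c0_nt.H55

namespace PADa

theorem n3 : ‖(3 : ℚ_[3])‖ = 3⁻¹ := by simpa using Padic.norm_p (p := 3)

theorem add_le {x y : ℚ_[3]} {r : ℝ} (h : ‖x‖ ≤ r) (k : ‖y‖ ≤ r) : ‖x + y‖ ≤ r :=
  (Padic.nonarchimedean x y).trans (max_le h k)

theorem add_eq {x y : ℚ_[3]} (h : ‖y‖ < ‖x‖) : ‖x + y‖ = ‖x‖ := by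
  rw [Padic.add_eq_max_of_ne h.ne', max_eq_left h.le]

theorem res (t : ℚ_[3]) (h : ‖t‖ ≤ 1) : ∃ n : ℕ, n < 3 ∧ ‖t - n‖ ≤ 3⁻¹ := by
  obtain ⟨z, rfl⟩ : ∃ z : ℤ_[3], t = z := ⟨⟨t, h⟩, rfl⟩
  obtain ⟨n, h1, h2⟩ := PadicInt.exists_mem_range z
  refine ⟨n, h1, ?_⟩
  have h3 : ‖z - n‖ < 1 := PadicInt.mem_nonunits.1 h2
  have h4 : ‖(z : ℚ_[3]) - n‖ < 1 := by simpa [PadicInt.norm_def] using h3
  simpa using (Padic.norm_le_pow_iff_norm_lt_pow_add_one ((z : ℚ_[3]) - (n : ℚ_[3])) (-1)).2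
    (by simpa using h4)

theorem lev_le (j : ℕ) : (3 : ℝ)⁻¹ ^ (j + 1) ≤ 3⁻¹ :=
  pow_le_of_le_one (by norm_num) (by norm_num) j.succ_ne_zero

theorem norm_one' {w : ℚ_[3]} (h : ‖w - 1‖ ≤ 3⁻¹) : ‖w‖ = 1 := by
  have := add_eq (x := 1) (y := w - 1) (by rw [norm_one]; linarith)
  rwa [add_sub_cancel, norm_one] at this

theorem lv_mul {w z : ℚ_[3]} {r : ℝ} (hr : r ≤ 3⁻¹) (h : ‖w - 1‖ ≤ r) (k : ‖z - 1‖ ≤ r) :
    ‖w * z - 1‖ ≤ r := by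
  rw [show w * z - 1 = w * (z - 1) + (w - 1) by ring]
  refine add_le ?_ h
  rwa [norm_mul, norm_one' (h.trans hr), one_mul]

theorem lin {w : ℚ_[3]} (h : ‖w - 1‖ ≤ 3⁻¹) (m : ℕ) :
    ‖w ^ m - 1 - m * (w - 1)‖ ≤ 3⁻¹ * ‖w - 1‖ := by
  induction m with
  | zero => simp
  | succ m ih =>
    rw [show w ^ (m + 1) - 1 - (m + 1 : ℕ) * (w - 1) =
      w * (w ^ m - 1 - m * (w - 1)) + m * ((w - 1) * (w - 1)) by push_cast; ring]
    refine add_le ?_ ?_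
    · rwa [norm_mul, norm_one' h, one_mul]
    · rw [norm_mul, norm_mul]
      exact (mul_le_of_le_one_left (by positivity) (IsUltrametricDist.norm_natCast_le_one _ m)).trans
        (mul_le_mul_of_nonneg_right h (norm_nonneg _))

theorem lv_pow {w : ℚ_[3]} (h : ‖w - 1‖ ≤ 3⁻¹) (m : ℕ) : ‖w ^ m - 1‖ ≤ ‖w - 1‖ := by
  induction m with
  | zero => simp
  | succ m ih => rw [pow_succ]; exact lv_mul h ih le_rfl

theorem pow_cop {w : ℚ_[3]} (h : ‖w - 1‖ ≤ 3⁻¹) {m : ℕ} (hm : ¬ 3 ∣ m) :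
    ‖w ^ m - 1‖ = ‖w - 1‖ := by
  rcases eq_or_ne w 1 with rfl | hw
  · simp
  have h0 : 0 < ‖w - 1‖ := norm_pos_iff.2 (sub_ne_zero.2 hw)
  have h1 : ‖(m : ℚ_[3]) * (w - 1)‖ = ‖w - 1‖ := by
    rw [norm_mul, Padic.norm_natCast_eq_one_iff.2
      ((Nat.Prime.coprime_iff_not_dvd Nat.prime_three).2 hm), one_mul]
  have := add_eq (x := m * (w - 1)) (y := w ^ m - 1 - m * (w - 1))
    ((lin h m).trans_lt (by rw [h1]; linarith))
  rwa [add_sub_cancel, h1] at this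

theorem cube {w : ℚ_[3]} (h : ‖w - 1‖ ≤ 3⁻¹) : ‖w ^ 3 - 1‖ = ‖w - 1‖ * 3⁻¹ := by
  have h1 : ‖(w - 1) * (3 + (w - 1))‖ < ‖(3 : ℚ_[3])‖ := by
    rw [norm_mul, n3]
    have := mul_le_mul h (add_le n3.le h) (norm_nonneg _) (by norm_num)
    linarith
  rw [show w ^ 3 - 1 = (w - 1) * (3 + (w - 1) * (3 + (w - 1))) by ring, norm_mul, add_eq h1, n3]

theorem pow3 {w : ℚ_[3]} (h : ‖w - 1‖ ≤ 3⁻¹) (i : ℕ) : ‖w ^ 3 ^ i - 1‖ = ‖w - 1‖ * 3⁻¹ ^ i := by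
  induction i with
  | zero => simp
  | succ i ih => rw [pow_succ, pow_mul, cube ((lv_pow h _).trans h), ih, pow_succ, mul_assoc]

/-- `w` is the square of `x` up to a power of `9` -/
def Nu (x w : ℚ_[3]) : Prop := ∃ m : ℤ, w = (x / 3 ^ m) ^ 2

theorem lam_of {j : ℕ} {x w : ℚ_[3]} (h : Nu x w) (k : ‖w - 1‖ ≤ 3⁻¹ ^ (j + 1)) : Lam j x := by
  obtain ⟨m, rfl⟩ := h
  exact ⟨m, k⟩

theorem Nu.mul {x y w z : ℚ_[3]} (h : Nu x w) (k : Nu y z) : Nu (x * y) (w * z) := by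
  obtain ⟨m, rfl⟩ := h
  obtain ⟨n, rfl⟩ := k
  exact ⟨m + n, by rw [zpow_add₀ three_ne_zero, ← mul_pow, div_mul_div_comm]⟩

theorem Nu.inv {x w : ℚ_[3]} (h : Nu x w) : Nu x⁻¹ w⁻¹ := by
  obtain ⟨m, rfl⟩ := h
  exact ⟨-m, by rw [zpow_neg, ← inv_pow, inv_div_inv, inv_div]⟩

theorem Nu.pow {x w : ℚ_[3]} (h : Nu x w) (n : ℕ) : Nu (x ^ n) (w ^ n) := by
  induction n with
  | zero => exact ⟨0, by simp⟩
  | succ n ih => rw [pow_succ, pow_succ]; exact ih.mul h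

theorem Nu.uniq {x w z : ℚ_[3]} (h : Nu x w) (k : Nu x z) (hw : ‖w‖ = 1) (hz : ‖z‖ = 1) :
    w = z := by
  obtain ⟨m, rfl⟩ := h
  obtain ⟨n, rfl⟩ := k
  rw [norm_pow, pow_eq_one_iff_of_nonneg (norm_nonneg _) two_ne_zero, norm_div, norm_zpow, n3,
    div_eq_one_iff_eq (by positivity)] at hw hz
  rw [zpow_right_injective₀ (by norm_num) (by norm_num) (hw.symm.trans hz)]

theorem ex_nu {x : ℚ_[3]} (hx : x ≠ 0) : ∃ w, Nu x w ∧ ‖w - 1‖ ≤ 3⁻¹ := by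
  refine ⟨_, ⟨x.valuation, rfl⟩, ?_⟩
  have h : ‖x / 3 ^ x.valuation‖ = 1 := by
    rw [norm_div, norm_zpow, n3, Padic.norm_eq_zpow_neg_valuation hx, inv_zpow',
      div_eq_one_iff_eq (by positivity)]
    norm_num
  generalize x / 3 ^ x.valuation = u at h
  obtain ⟨n, h1, h2⟩ := res u h.le
  have e : ‖u ^ 2 - 1‖ = ‖u - 1‖ * ‖u + 1‖ := by
    rw [← norm_mul]
    congr 1
    ring
  have a1 : ‖u - 1‖ ≤ 1 := by
    rw [sub_eq_add_neg]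
    exact add_le h.le (by simp)
  have a2 : ‖u + 1‖ ≤ 1 := add_le h.le (by simp)
  interval_cases n
  · rw [Nat.cast_zero, sub_zero, h] at h2
    norm_num at h2
  · rw [e]
    exact (mul_le_of_le_one_right (norm_nonneg _) a2).trans (by simpa using h2)
  · rw [e]
    refine (mul_le_of_le_one_left (norm_nonneg _) a1).trans ?_
    rw [show u + 1 = u - (2 : ℕ) + 3 by push_cast; ring]
    exact add_le h2 n3.le

theorem lv_inv {w : ℚ_[3]} (h : ‖w - 1‖ ≤ 3⁻¹) : ‖w⁻¹ - 1‖ = ‖w - 1‖ := by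
  have h1 := norm_one' h
  have h0 : w ≠ 0 := norm_ne_zero_iff.1 (by rw [h1]; exact one_ne_zero)
  rw [show w⁻¹ - 1 = -(w⁻¹ * (w - 1)) by field_simp; ring, norm_neg, norm_mul, norm_inv, h1,
    inv_one, one_mul]

theorem step {z e : ℚ_[3]} (he : ‖e - 1‖ ≤ 3⁻¹) (h0 : 0 < ‖e - 1‖) (hz : ‖z - 1‖ ≤ ‖e - 1‖) :
    ∃ n : ℕ, ‖z * e ^ n - 1‖ ≤ ‖e - 1‖ * 3⁻¹ := by
  have h1 : e - 1 ≠ 0 := norm_pos_iff.1 h0
  obtain ⟨n, -, h2⟩ := res (-(z - 1) / (e - 1))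
    (by rw [norm_div, norm_neg]; exact (div_le_one h0).2 hz)
  refine ⟨n, ?_⟩
  rw [show z * e ^ n - 1 = -((e - 1) * (-(z - 1) / (e - 1) - n)) + (e ^ n - 1 - n * (e - 1)) +
    (z - 1) * (e ^ n - 1) by field_simp; ring]
  refine add_le (add_le ?_ ?_) ?_
  · rw [norm_neg, norm_mul]
    exact mul_le_mul_of_nonneg_left h2 h0.le
  · exact (lin he n).trans_eq (mul_comm _ _)
  · rw [norm_mul]
    exact mul_le_mul hz ((lv_pow he n).trans he) (norm_nonneg _) h0.le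

end PADa

open PADa

theorem rowPAD : RowPAD where
  one j := ⟨0, by simp⟩
  mul j x y := by
    rintro ⟨m, h⟩ ⟨n, k⟩
    exact lam_of (Nu.mul ⟨m, rfl⟩ ⟨n, rfl⟩) (lv_mul (lev_le j) h k)
  inv j x := by
    rintro ⟨m, h⟩
    exact lam_of (Nu.inv ⟨m, rfl⟩) ((lv_inv (h.trans (lev_le j))).trans_le h)
  three j := ⟨⟨1, by simp⟩, ⟨0, by simp⟩⟩
  cube x hx := by
    obtain ⟨w, h1, h2⟩ := ex_nu hx
    refine lam_of (h1.pow 3) ?_
    rw [cube h2]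
    linarith
  dvd η hη hn j m := by
    rintro ⟨n, h⟩
    rcases eq_or_ne m 0 with rfl | hm
    · exact dvd_zero _
    obtain ⟨w, h1, h2⟩ := ex_nu hη
    have h3 : (3 : ℝ)⁻¹ ^ (1 + 1) < ‖w - 1‖ := not_le.1 fun k => hn (lam_of h1 k)
    rw [Nu.uniq ⟨n, rfl⟩ (h1.pow m) (norm_one' (h.trans (lev_le j)))
      (norm_one' ((lv_pow h2 m).trans h2))] at h
    obtain ⟨i, m', hm', rfl⟩ := Nat.exists_eq_pow_mul_and_not_dvd hm 3 (by norm_num)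
    rw [pow_mul, pow_cop ((lv_pow h2 _).trans h2) hm', pow3 h2] at h
    have h4 : (3 : ℝ)⁻¹ ^ (1 + 1 + i) < 3⁻¹ ^ (j + 1) := by
      rw [pow_add]
      exact (mul_lt_mul_of_pos_right h3 (by positivity)).trans_le h
    have h5 := (pow_lt_pow_iff_right_of_lt_one₀ (by norm_num) (by norm_num)).1 h4
    exact (pow_dvd_pow 3 (by omega)).mul_right _
  adj ε hε hn := by
    obtain ⟨w, h1, h2⟩ := ex_nu hε
    have h0 : w - 1 ≠ 0 := by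
      obtain ⟨m, rfl⟩ := h1
      exact sub_ne_zero.2 (hn m)
    obtain ⟨c, hc⟩ : ∃ c : ℕ, ‖w - 1‖ = 3⁻¹ ^ (c + 1) := by
      have e := Padic.norm_eq_zpow_neg_valuation h0
      have e1 : ((3 : ℕ) : ℝ) ^ (-(w - 1).valuation) ≤ ((3 : ℕ) : ℝ) ^ (-1 : ℤ) := by
        rw [← e]
        simpa using h2
      have e2 := (zpow_le_zpow_iff_right₀ (by norm_num)).1 e1
      obtain ⟨c, hc⟩ := Int.eq_ofNat_of_zero_le (show 0 ≤ (w - 1).valuation - 1 by omega)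
      refine ⟨c, ?_⟩
      rw [e, show (w - 1).valuation = (c + 1 : ℕ) by push_cast; omega, zpow_neg, zpow_natCast,
        inv_pow]
      norm_num
    refine ⟨c, fun j y hy => ?_⟩
    obtain ⟨z, k1, k2⟩ := ex_nu hy
    have key : ∀ i : ℕ, ∃ m : ℕ, ‖z ^ 3 ^ c * w ^ m - 1‖ ≤ 3⁻¹ ^ (c + 1) * 3⁻¹ ^ i := by
      intro i
      induction i with
      | zero =>
        refine ⟨0, ?_⟩
        rw [pow_zero, mul_one, pow_zero, mul_one, pow3 k2, pow_succ']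
        exact mul_le_mul_of_nonneg_right k2 (by positivity)
      | succ i ih =>
        obtain ⟨m, hm⟩ := ih
        have e := pow3 h2 i
        rw [hc] at e
        obtain ⟨n, hn'⟩ := step ((lv_pow h2 (3 ^ i)).trans h2) (by rw [e]; positivity)
          (hm.trans e.ge)
        refine ⟨m + 3 ^ i * n, ?_⟩
        rwa [pow_add, pow_mul, ← mul_assoc, pow_succ _ i, ← mul_assoc, ← e]
    obtain ⟨m, hm⟩ := key j
    refine ⟨m, lam_of ((k1.pow _).mul (h1.pow m)) (hm.trans ?_)⟩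
    rw [← pow_add]
    exact pow_le_pow_of_le_one (by norm_num) (by norm_num) (by omega)
  col := by
    have h : ∀ x : ℚ_[3], x ≠ 0 → ∃ (w : ℚ_[3]) (n : Fin 3), Nu x w ∧ ‖w - 1‖ ≤ 3⁻¹ ∧
        ‖w - 1 - 3 * (n : ℕ)‖ ≤ 3⁻¹ ^ (1 + 1) := by
      intro x hx
      obtain ⟨w, h1, h2⟩ := ex_nu hx
      obtain ⟨n, h3, h4⟩ := res ((w - 1) / 3)
        (by rw [norm_div, n3]; exact (div_le_one (by norm_num)).2 h2)
      refine ⟨w, ⟨n, h3⟩, h1, h2, ?_⟩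
      rw [show w - 1 - 3 * ((⟨n, h3⟩ : Fin 3) : ℕ) = 3 * ((w - 1) / 3 - n) by ring, norm_mul, n3]
      linarith
    choose! w n h1 h2 h3 using h
    refine ⟨n, fun x y hx hy e => ?_⟩
    rw [div_eq_mul_inv]
    refine lam_of ((h1 x hx).mul (h1 y hy).inv) ?_
    have k1 := norm_one' (h2 y hy)
    have k0 : w y ≠ 0 := norm_ne_zero_iff.1 (by rw [k1]; exact one_ne_zero)
    rw [show w x * (w y)⁻¹ - 1 = (w y)⁻¹ * (w x - 1 - 3 * (n x : ℕ) + -(w y - 1 - 3 * (n x : ℕ)))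
      by field_simp; ring, norm_mul, norm_inv, k1, inv_one, one_mul]
    refine add_le (h3 x hx) ?_
    rw [norm_neg, e]
    exact h3 y hy

end Pool.Agent.MP_1246c0_nt.H16
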