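import Pool.Agent.MP_1246c0_nt.H25.SpecA
import Pool.Agent.MP_1246c0_nt.H79.DEC

/-! The values of the characters on a frame. -/

namespace Pool.Agent.MP_1246c0_nt.H25

open NumberField Polynomial Pool.Agent.MP_db5b97_nt.H85 Pool.Agent.MP_1246c0_nt.H12

namespace AXV

theorem coe_smul (h : Ga) (x : OO) : ((h • x : OO) : Om) = h (x : Om) := rfl

theorem int_mem {Q : Ideal OO} (hQ : Q.IsMaximal) {l : ℕ} (hl : l.Prime) (h : (l : OO) ∈ Q)
    (m : ℤ) : (m : OO) ∈ Q ↔ (l : ℤ) ∣ m := by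
  refine ⟨fun hm => ?_, ?_⟩
  · by_contra hn
    obtain ⟨a, b, e⟩ := (Nat.prime_iff_prime_int.1 hl).irreducible.coprime_iff_not_dvd.2 hn
    apply hQ.ne_top
    rw [Ideal.eq_top_iff_one]
    have e' : (1 : OO) = a * l + b * m := by exact_mod_cast e.symm
    rw [e']
    exact add_mem (Q.mul_mem_left _ h) (Q.mul_mem_left _ hm)
  · rintro ⟨c, rfl⟩
    push_cast
    exact Q.mul_mem_right _ h

theorem two_not {Q : Ideal OO} (hQ : Q.IsMaximal) {l : ℕ} (hl : Gd 0 l) (h : (l : OO) ∈ Q) :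
    (2 : OO) ∉ Q := fun h2 => by
  have h3 := (int_mem hQ hl.1 h 2).1 (by exact_mod_cast h2)
  exact hl.2.1 ((Nat.prime_dvd_prime_iff_eq hl.1 Nat.prime_two).1 (by exact_mod_cast h3))

theorem root_sep {Q : Ideal OO} (hQ : Q.IsMaximal) (h2 : (2 : OO) ∉ Q) (k : ℕ) : ∀ a b : OO,
    a ^ 2 ^ k = 1 → b ^ 2 ^ k = 1 → a - b ∈ Q → a = b := by
  induction k with
  | zero => intro a b ha hb _; simp_all
  | succ k ih =>
    intro a b ha hb h
    have h1 := ih (a ^ 2) (b ^ 2) (by rwa [← pow_mul, ← pow_succ'])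
      (by rwa [← pow_mul, ← pow_succ']) (by rw [sq_sub_sq]; exact Q.mul_mem_left _ h)
    rcases sq_eq_sq_iff_eq_or_eq_neg.1 h1 with e | e
    · exact e
    · rw [e, ← neg_add', neg_mem_iff, ← two_mul] at h
      have h3 := (hQ.isPrime.mem_or_mem h).resolve_left h2
      have h4 := Q.pow_mem_of_mem h3 (2 ^ (k + 1)) (by positivity)
      rw [hb] at h4
      exact absurd ((Ideal.eq_top_iff_one Q).2 h4) hQ.ne_top

theorem root_fb {Q : Ideal OO} (hQ : Q.IsMaximal) (h2 : (2 : OO) ∉ Q) {q : ℕ} {h : Ga}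
    (hh : Fb Q q h) {k : ℕ} {ζ : Om} (hζ : ζ ^ 2 ^ k = 1) : h ζ = ζ ^ q := by
  have hi : IsIntegral ℤ ζ := IsIntegral.of_pow (n := 2 ^ k) (by positivity) (hζ ▸ isIntegral_one)
  let z : OO := ⟨ζ, hi⟩
  have hz : z ^ 2 ^ k = 1 := RingOfIntegers.ext hζ
  exact congrArg (fun x : OO => (x : Om)) (root_sep hQ h2 k (h • z) (z ^ q)
    (by rw [← smul_pow', hz, smul_one]) (by rw [← pow_mul, mul_comm, pow_mul, hz, one_pow]) (hh z))

theorem in_fb {Q : Ideal OO} {h : Ga} (hh : In Q h) : Fb Q 1 h := fun x => by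
  rw [pow_one]
  exact hh x

theorem cub_it {ζ : Om} (h0 : ζ ≠ 0) (k : ℕ) :
    cub^[k] (ζ + ζ⁻¹) = ζ ^ 3 ^ k + (ζ ^ 3 ^ k)⁻¹ := by
  induction k with
  | zero => simp
  | succ k ih =>
    have h1 : ζ ^ 3 ^ k ≠ 0 := pow_ne_zero _ h0
    rw [Function.iterate_succ_apply', ih, pow_succ, pow_mul, cub]
    field_simp
    ring

theorem kap_of (h0 : Ax0) {n : ℕ} {ζ : Om} (hζ : IsPrimitiveRoot ζ (2 ^ (n + 2)))
    (e : th n = ζ + ζ⁻¹) {h : Ga} (k : ℕ) (hh : h ζ = ζ ^ 3 ^ k ∨ h ζ * ζ ^ 3 ^ k = 1) :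
    kap n h = k := by
  rw [← h0.kdef, e, cub_it (hζ.ne_zero (by positivity)), map_add, map_inv₀]
  rcases hh with hh | hh
  · rw [hh]
  · rw [eq_inv_of_mul_eq_one_left hh, inv_inv, add_comm]

theorem kap_zero (h0 : Ax0) (hK : SKQ) (n : ℕ) {h : Ga}
    (hh : ∀ ζ : Om, ζ ^ 2 ^ (n + 2) = 1 → h ζ = ζ ∨ h ζ * ζ = 1) : kap n h = 0 := by
  obtain ⟨ζ, hζ, e⟩ := hK.root n
  simpa using kap_of h0 hζ e 0 (by simpa using hh ζ hζ.pow_eq_one)

theorem cj_root (Φ : Frm) {k : ℕ} {ζ : Om} (hζ : ζ ^ 2 ^ k = 1) : Φ.cj ζ * ζ = 1 := by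
  apply Φ.ρ.injective
  have h1 : ‖Φ.ρ ζ‖ = 1 := Complex.norm_eq_one_of_pow_eq_one (n := 2 ^ k)
    (by rw [← map_pow, hζ, map_one]) (by positivity)
  rw [map_mul, Φ.ccj, ← Complex.inv_eq_conj h1, map_one]
  exact inv_mul_cancel₀ (by rintro e; simp [e] at h1)

theorem cong {n l k : ℕ} {ζ : Om} (hζ : IsPrimitiveRoot ζ (2 ^ (n + 2))) (hl : l % 2 = 1)
    (e : ζ ^ l + (ζ ^ l)⁻¹ = ζ ^ 3 ^ k + (ζ ^ 3 ^ k)⁻¹) :
    (2 : ℤ) ^ (n + 3) ∣ (l : ℤ) ^ 2 - 9 ^ k := by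
  have h0 : ζ ≠ 0 := hζ.ne_zero (by positivity)
  have h1 := pow_ne_zero l h0
  have h2 := pow_ne_zero (3 ^ k) h0
  have h3 : (ζ ^ l - ζ ^ 3 ^ k) * (ζ ^ l * ζ ^ 3 ^ k - 1) = 0 := by
    field_simp at e
    linear_combination e
  have o1 : Odd (l : ℤ) := by exact_mod_cast Nat.odd_iff.2 hl
  have o2 : Odd ((3 : ℤ) ^ k) := Odd.pow (by decide)
  have f : (l : ℤ) ^ 2 - 9 ^ k = (l + 3 ^ k) * (l - 3 ^ k) := by
    rw [show (9 : ℤ) = 3 ^ 2 by norm_num, ← pow_mul, mul_comm 2 k, pow_mul]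
    ring
  rw [f]
  rcases mul_eq_zero.1 h3 with h | h
  · have h4 := (hζ.zpow_eq_one_iff_dvd ((l : ℤ) - (3 ^ k : ℕ))).1 (by
      rw [zpow_sub₀ h0, zpow_natCast, zpow_natCast, sub_eq_zero.1 h, div_self h2])
    rw [pow_succ']
    exact mul_dvd_mul (o1.add_odd o2).two_dvd (by exact_mod_cast h4)
  · have h4 := (hζ.pow_eq_one_iff_dvd (l + 3 ^ k)).1 (by rw [pow_add, sub_eq_zero.1 h])
    rw [pow_succ]
    exact mul_dvd_mul (by exact_mod_cast h4) (o1.sub_odd o2).two_dvd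

theorem kfr (h0 : Ax0) (hK : SKQ) (Φ : Frm) (n l : ℕ) (hl : Gd 0 l) :
    ∃ o : ℕ, Odd o ∧ kap n (Φ.fr l) = ((2 ^ lev l * o : ℕ) : ZMod (2 ^ n)) := by
  obtain ⟨ζ, hζ, e⟩ := hK.root n
  obtain ⟨hQ, hm⟩ := Φ.mx l hl.1
  have h1 := root_fb hQ (two_not hQ hl hm) (Φ.ffr l hl) hζ.pow_eq_one
  have ho : l % 2 = 1 := hl.1.eq_two_or_odd.resolve_left hl.2.1
  obtain ⟨k, hk⟩ : ∃ k : ℕ, kap n (Φ.fr l) = k := ⟨_, (ZMod.natCast_zmod_val _).symm⟩
  have h2 := (h0.kdef n _ k).2 hk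
  rw [e, cub_it (hζ.ne_zero (by positivity)), map_add, map_inv₀, h1] at h2
  have h3 := cong hζ ho h2
  have key : ∀ a ≤ n, (a ≤ lev l ↔ 2 ^ a ∣ k) := fun a ha => by
    have h4 := (pow_dvd_pow (2 : ℤ) (show a + 3 ≤ n + 3 by omega)).trans h3
    rw [DEC.lev_int ho hl.1.one_lt, ← DEC.nine]
    have f : (l : ℤ) ^ 2 - 1 = (l : ℤ) ^ 2 - 9 ^ k + (9 ^ k - 1) := by ring
    rw [f, dvd_add_right h4]
  rw [hk]
  rcases le_or_gt n (lev l) with h | h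
  · refine ⟨1, odd_one, ?_⟩
    rw [(ZMod.natCast_eq_zero_iff _ _).2 ((key n le_rfl).1 h),
      (ZMod.natCast_eq_zero_iff _ _).2 ((pow_dvd_pow 2 h).mul_right 1)]
  · obtain ⟨o, rfl⟩ := (key _ h.le).1 le_rfl
    refine ⟨o, Nat.not_even_iff_odd.1 fun he => ?_, rfl⟩
    have h5 := (key _ h).2
      (by rw [Nat.succ_eq_add_one, pow_succ]; exact mul_dvd_mul_left _ he.two_dvd)
    omega

/-- the square root as an algebraic integer -/
noncomputable def sq (m : ℤ) : OO :=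
  ⟨sqr m, IsIntegral.of_pow two_pos
    (by rw [pow_two, sqr_mul]; exact isIntegral_algebraMap (x := m))⟩

theorem sq_mul (m : ℤ) : sq m * sq m = m := RingOfIntegers.ext (sqr_mul _)

theorem chi_zero {m : ℤ} {h : Ga} (e : h • sq m = sq m) : chi m h = 0 :=
  if_pos (congrArg (fun x : OO => (x : Om)) e)

theorem chi_one {m : ℤ} {h : Ga} (e : h • sq m ≠ sq m) : chi m h = 1 :=
  if_neg fun e' => e (RingOfIntegers.ext e')

theorem pm (m : ℤ) (h : Ga) : h • sq m = sq m ∨ h • sq m = -sq m := by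
  apply mul_self_eq_mul_self_iff.1
  rw [← smul_mul', sq_mul]
  exact map_intCast (MulSemiringAction.toRingHom Ga OO h) m

theorem two_sq {Q : Ideal OO} (hQ : Q.IsMaximal) (h2 : (2 : OO) ∉ Q) {m : ℤ} (hm : (m : OO) ∉ Q) :
    sq m + sq m ∉ Q := fun h => by
  rw [← two_mul] at h
  exact hm (sq_mul m ▸ Q.mul_mem_left _ ((hQ.isPrime.mem_or_mem h).resolve_left h2))

theorem chi_near {Q : Ideal OO} (hQ : Q.IsMaximal) (h2 : (2 : OO) ∉ Q) {m : ℤ}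
    (hm : (m : OO) ∉ Q) {h : Ga} (e : h • sq m - sq m ∈ Q) : chi m h = 0 := by
  rcases pm m h with e' | e'
  · exact chi_zero e'
  · rw [e', ← neg_add', neg_mem_iff] at e
    exact absurd e (two_sq hQ h2 hm)

theorem chi_pow (h0 : Ax0) {m : ℤ} (hm : m ≠ 0) (h : Ga) (a : ℕ) : chi (m ^ a) h = a * chi m h := by
  induction a with
  | zero =>
    have := h0.cmul' 1 1 h one_ne_zero one_ne_zero
    simpa using this
  | succ a ih =>
    rw [pow_succ, h0.cmul' _ _ _ (pow_ne_zero _ hm) hm, ih]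
    push_cast
    ring

theorem csg (h0 : Ax0) (Φ : Frm) (l : ℕ) (m : ℤ) (hl : Gd 0 l) (hm : m ≠ 0) :
    chi m (Φ.sg l) = (padicValInt l m : F2) := by
  have := Fact.mk hl.1
  obtain ⟨hQ, hq⟩ := Φ.mx l hl.1
  obtain ⟨c, hc⟩ := padicValInt_dvd (p := l) m
  have hc0 : c ≠ 0 := fun e => hm (by rw [hc, e, mul_zero])
  have hl0 : (l : ℤ) ≠ 0 := by exact_mod_cast hl.1.ne_zero
  have hn : ¬(l : ℤ) ∣ c := fun hd => by
    have h1 : (l : ℤ) ^ (padicValInt l m + 1) ∣ m := by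
      rw [pow_succ]
      exact (mul_dvd_mul_left _ hd).trans hc.symm.dvd
    have := ((padicValInt_dvd_iff _ _).1 h1).resolve_left hm
    omega
  have h1 := chi_near hQ (two_not hQ hl hq) (mt (int_mem hQ hl.1 hq c).1 hn) (Φ.isg l hl.1 (sq c))
  have h2 := h0.cmul' _ _ (Φ.sg l) (pow_ne_zero (padicValInt l m) hl0) hc0
  rw [← hc, chi_pow h0 hl0, Φ.ram l hl, h1] at h2
  simpa using h2

theorem cfr (Φ : Frm) (l m : ℕ) (hl : Gd 0 l) (hm : ¬l ∣ m) : chi m (Φ.fr l) = lg m l := by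
  have := Fact.mk hl.1
  obtain ⟨hQ, hq⟩ := Φ.mx l hl.1
  have h1 := Φ.ffr l hl (sq m)
  generalize Φ.Q l = Q at hQ hq h1
  have h2 := two_not hQ hl hq
  have hn : ((m : ℤ) : OO) ∉ Q := mt (int_mem hQ hl.1 hq m).1 (by exact_mod_cast hm)
  have h0 : (m : ZMod l) ≠ 0 := mt (ZMod.natCast_eq_zero_iff _ _).1 hm
  have ho : l = 2 * (l / 2) + 1 := by have := hl.1.eq_two_or_odd.resolve_left hl.2.1; omega
  have e : sq m ^ l = (m : OO) ^ (l / 2) * sq m := by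
    conv_lhs => rw [ho, pow_succ, pow_mul, pow_two, sq_mul]
    simp
  rw [e] at h1
  have key : ∀ c : ℤ, (m : ZMod l) ^ (l / 2) = c → Φ.fr l • sq m - c * sq m ∈ Q := fun c hc => by
    have h3 : (((m : ℤ) ^ (l / 2) - c : ℤ) : OO) ∈ Q := (int_mem hQ hl.1 hq _).2
      ((ZMod.intCast_zmod_eq_zero_iff_dvd _ _).1 (by push_cast; rw [hc, sub_self]))
    have h4 := add_mem h1 (Q.mul_mem_right (sq m) h3)
    push_cast at h4
    convert h4 using 1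
    ring
  unfold lg qr
  split_ifs with hs
  · exact chi_near hQ h2 hn (by simpa using key 1 (by simpa using (ZMod.euler_criterion l h0).1 hs))
  · have h3 := (ZMod.pow_div_two_eq_neg_one_or_one l h0).resolve_left
      (mt (ZMod.euler_criterion l h0).2 hs)
    refine chi_one fun e' => two_sq hQ h2 hn ?_
    simpa [e'] using key (-1) (by simpa using h3)

theorem i4 : sqr ((-1 : ℤ) : Om) ^ 2 ^ 2 = 1 := by
  rw [pow_two 2, pow_mul, pow_two (sqr _), sqr_mul]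
  simp

theorem cm_one {h : Ga} (e : h (sqr ((-1 : ℤ) : Om)) * sqr ((-1 : ℤ) : Om) = 1) :
    chi (-1) h = 1 := if_neg fun e' => by
  rw [e', sqr_mul] at e
  exact absurd (Int.cast_injective (e.trans Int.cast_one.symm)) (by decide)

theorem cm (Φ : Frm) : chi (-1) (Φ.sg 2) = 1 ∧ chi (-1) (Φ.fr 2) = 0 ∧ chi (-1) Φ.cj = 1 ∧
    chi (-1) Φ.f2 = 0 ∧ ∀ l, Gd 0 l → chi (-1) (Φ.fr l) = eps l := by
  obtain ⟨h1, h2, h3⟩ := Φ.cyc 2 _ i4
  have h4 := i4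
  refine ⟨cm_one h1, if_pos ?_, cm_one (cj_root Φ i4), if_pos h3, fun l hl => ?_⟩
  · linear_combination sqr ((-1 : ℤ) : Om) * h2 - Φ.fr 2 (sqr ((-1 : ℤ) : Om)) * h4
  · obtain ⟨hQ, hq⟩ := Φ.mx l hl.1
    have h5 := root_fb hQ (two_not hQ hl hq) (Φ.ffr l hl) i4
    rw [pow_eq_pow_mod l h4] at h5
    have ho := hl.1.eq_two_or_odd.resolve_left hl.2.1
    unfold eps
    split_ifs with h6
    · refine cm_one ?_
      rw [h5, show l % 2 ^ 2 = 3 from h6, ← pow_succ]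
      exact h4
    · refine if_pos ?_
      rw [h5, show l % 2 ^ 2 = 1 by omega, pow_one]

/-- the integer `(1 + √(4c + 1)) / 2` -/
theorem half (c : ℤ) : ∃ z : OO, 2 * z = 1 + sq (4 * c + 1) ∧ z ^ 2 = z + c := by
  have e : ((1 + sqr ((4 * c + 1 : ℤ) : Om)) / 2) ^ 2 =
      (1 + sqr ((4 * c + 1 : ℤ) : Om)) / 2 + c := by
    have := sqr_mul ((4 * c + 1 : ℤ) : Om)
    generalize sqr ((4 * c + 1 : ℤ) : Om) = s at *
    push_cast at this
    linear_combination this / 4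
  refine ⟨⟨(1 + sqr ((4 * c + 1 : ℤ) : Om)) / 2, X ^ 2 - (X + C c), ?_, ?_⟩, ?_, ?_⟩
  · exact (monic_X_pow 2).sub_of_left (by rw [degree_X_add_C, degree_X_pow]; decide)
  · simp only [eval₂_sub, eval₂_add, eval₂_pow, eval₂_X, eval₂_C, e]
    simp
  · exact RingOfIntegers.ext (mul_div_cancel₀ _ two_ne_zero)
  · exact RingOfIntegers.ext e

theorem chi_two {Q : Ideal OO} (hQ : Q.IsMaximal) (h2 : ((2 : ℕ) : OO) ∈ Q) (c : ℤ) (h : Ga) :
    (In Q h → chi (4 * c + 1) h = 0) ∧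
      (Fb Q 2 h → chi (4 * c + 1) h = if c % 2 = 0 then 0 else 1) := by
  obtain ⟨z, e1, e2⟩ := half c
  have hi := int_mem hQ Nat.prime_two h2
  have e3 : 2 * h • z = 1 + h • sq (4 * c + 1) := by
    rw [two_mul, ← smul_add, ← two_mul, e1, smul_add, smul_one]
  have n1 : h • sq (4 * c + 1) = -sq (4 * c + 1) → h • z = 1 - z := fun e => by
    apply mul_left_cancel₀ (two_ne_zero (α := OO))
    rw [e3, e]
    linear_combination e1
  have n2 : h • sq (4 * c + 1) = sq (4 * c + 1) → h • z = z := fun e => by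
    apply mul_left_cancel₀ (two_ne_zero (α := OO))
    rw [e3, e, e1]
  have h3 : 2 * z ∈ Q := Q.mul_mem_right _ (by exact_mod_cast h2)
  refine ⟨fun hh => chi_zero ((pm _ h).resolve_right fun e => ?_), fun hh => ?_⟩
  · have h4 := add_mem (hh z) h3
    rw [n1 e] at h4
    have h5 := (hi 1).1 (by convert h4 using 1; push_cast; ring)
    omega
  · have h4 := hh z
    split_ifs with hc
    · refine chi_zero ((pm _ h).resolve_right fun e => ?_)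
      rw [n1 e, e2] at h4
      have h5 := (hi (1 - c)).1 (by convert add_mem h4 h3 using 1; push_cast; ring)
      omega
    · refine chi_one fun e => ?_
      rw [n2 e, e2] at h4
      have h5 := (hi (-c)).1 (by convert h4 using 1; push_cast; ring)
      omega

theorem codd (h0 : Ax0) (Φ : Frm) (m : ℕ) (hm : Odd m) : chi m (Φ.sg 2) = eps m ∧
    chi m (Φ.fr 2) = 0 ∧ chi m Φ.f2 = if m % 8 = 3 ∨ m % 8 = 5 then 1 else 0 := by
  obtain ⟨hQ, hq⟩ := Φ.mx 2 Nat.prime_two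
  have k1 := fun c => (chi_two hQ hq c _).1 (Φ.isg 2 Nat.prime_two)
  have k2 := fun c => (chi_two hQ hq c _).1 Φ.ifr
  have k3 := fun c => (chi_two hQ hq c _).2 Φ.ff2
  obtain ⟨c1, c2, -, c3, -⟩ := cm Φ
  have ho := Nat.odd_iff.1 hm
  unfold eps
  by_cases h4 : m % 4 = 3
  · obtain ⟨c, hc⟩ : ∃ c : ℤ, (m : ℤ) = -1 * (4 * c + 1) := ⟨-(m + 1) / 4, by omega⟩
    have hc0 : 4 * c + 1 ≠ 0 := by omega
    have e := fun h => h0.cmul' (-1) (4 * c + 1) h (by decide) hc0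
    rw [hc, e, e, e, k1, k2, k3, c1, c2, c3, if_pos h4]
    refine ⟨rfl, rfl, ?_⟩
    split_ifs <;> first | rfl | omega
  · obtain ⟨c, hc⟩ : ∃ c : ℤ, (m : ℤ) = 4 * c + 1 := ⟨(m - 1) / 4, by omega⟩
    rw [hc, k1, k2, k3, if_neg h4]
    refine ⟨rfl, rfl, ?_⟩
    split_ifs <;> first | rfl | omega

theorem ccj (Φ : Frm) (m : ℕ) : chi m Φ.cj = 0 := by
  refine if_pos (Φ.ρ.injective ?_)
  have e : Φ.ρ (sqr ((m : ℤ) : Om)) * Φ.ρ (sqr ((m : ℤ) : Om)) = (√m : ℝ) * (√m : ℝ) := by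
    rw [← map_mul, sqr_mul, ← Complex.ofReal_mul, Real.mul_self_sqrt (Nat.cast_nonneg m)]
    simp
  rw [Φ.ccj]
  rcases mul_self_eq_mul_self_iff.1 e with e | e <;> rw [e] <;> simp

end AXV

open AXV in
theorem rowAXV : OfAXV := by
  intro _ _ _ _ _ h0 hK Φ
  refine ⟨fun n l hl => kap_zero h0 hK n fun ζ hζ => ?_,
    fun n => kap_zero h0 hK n fun ζ hζ => .inr (cj_root Φ hζ),
    fun n => kap_zero h0 hK n fun ζ hζ => .inl (Φ.cyc _ ζ hζ).2.2, fun n => ?_, kfr h0 hK Φ,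
    csg h0 Φ, cm Φ, codd h0 Φ, ccj Φ, cfr Φ, ?_⟩
  · by_cases h2 : l = 2
    · exact .inr (h2 ▸ (Φ.cyc _ ζ hζ).1)
    · obtain ⟨hQ, hq⟩ := Φ.mx l hl
      exact .inl (by
        simpa using root_fb hQ (two_not hQ ⟨hl, h2, Nat.zero_le _⟩ hq) (in_fb (Φ.isg l hl)) hζ)
  · obtain ⟨ζ, hζ, e⟩ := hK.root n
    simpa using kap_of h0 hζ e 1 (.inr (Φ.cyc _ ζ hζ.pow_eq_one).2.1)
  · ext x
    apply Φ.ρ.injective
    rw [AlgEquiv.mul_apply, Φ.ccj, Φ.ccj, Complex.conj_conj, AlgEquiv.one_apply]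

end Pool.Agent.MP_1246c0_nt.H25
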