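import Pool.Agent.MP_1246c0_nt.H25.SpecU
import Pool.Agent.MP_db5b97_nt.H72.Z

/-! The Euler product over ideals, with the full logarithmic series. -/

namespace Pool.Agent.MP_1246c0_nt.H25

open NumberField IsDedekindDomain Filter Topology Pool.Agent.MP_db5b97_nt.H85
open Pool.Agent.MP_db5b97_nt.H72 (tsum_dvd asIdeal_inj)

namespace EUX

variable {k : Type} [Field k] [NumberField k]

theorem euler (f : Ideal (𝓞 k) → ℂ) (h1 : f ⊤ = 1) (h0 : f ⊥ = 0)
    (hm : ∀ I J, f (I * J) = f I * f J) (hs : Summable fun I => ‖f I‖)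
    (hv : ∀ v : Sp k, ‖f v.asIdeal‖ ≤ 1 / 2) :
    ∑' I, f I ≠ 0 ∧
      Real.log ‖∑' I, f I‖ = -(∑' v : Sp k, Complex.log (1 + -f v.asIdeal)).re := by
  classical
  let g : Finset (Sp k) → Ideal (𝓞 k) → ℂ := fun S I => if ∀ w ∈ S, ¬ w.asIdeal ∣ I then f I else 0
  have hg : ∀ S I, ‖g S I‖ ≤ ‖f I‖ := fun S I => by
    simp only [g]
    split_ifs <;> simp
  have hgs : ∀ S, Summable (g S) := fun S => hs.of_norm_bounded (hg S)
  have step : ∀ (S : Finset (Sp k)) (v : Sp k), v ∉ S →
      ∑' I, g (insert v S) I = (∑' I, g S I) * (1 + -f v.asIdeal) := by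
    intro S v hvS
    have e1 : ∀ I, g (insert v S) I = g S I - if v.asIdeal ∣ I then g S I else 0 := by
      intro I
      simp only [g, Finset.forall_mem_insert]
      by_cases h : v.asIdeal ∣ I <;> simp [h]
    have e2 : ∀ I, g S (v.asIdeal * I) = f v.asIdeal * g S I := by
      intro I
      have : (∀ w ∈ S, ¬ w.asIdeal ∣ v.asIdeal * I) ↔ ∀ w ∈ S, ¬ w.asIdeal ∣ I := by
        refine forall₂_congr fun w hw => not_congr ?_
        rw [w.prime.dvd_mul]
        refine or_iff_right fun h => hvS ?_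
        have : w = v := HeightOneSpectrum.ext
          (associated_iff_eq.1 (w.prime.associated_of_dvd v.prime h))
        rwa [← this]
      simp only [g, this, hm]
      split_ifs <;> simp
    rw [tsum_congr e1, (hgs S).tsum_sub, tsum_dvd v.ne_bot, tsum_congr e2, tsum_mul_left]
    · ring
    · refine hs.of_norm_bounded fun I => ?_
      split_ifs
      · exact hg S I
      · simp
  have prod : ∀ S : Finset (Sp k), ∑' I, g S I = (∑' I, f I) * ∏ v ∈ S, (1 + -f v.asIdeal) := by
    intro S
    induction S using Finset.induction_on with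
    | empty => simp [g]
    | insert v S h ih => rw [step S v h, ih, Finset.prod_insert h]; ring
  have lim : Tendsto (fun S => ∑' I, g S I) atTop (𝓝 1) := by
    have : (1 : ℂ) = ∑' I : Ideal (𝓞 k), if I = ⊤ then 1 else 0 := by simp
    rw [this]
    refine tendsto_tsum_of_dominated_convergence hs (fun I => ?_) (Eventually.of_forall hg)
    by_cases hI : I = ⊤
    · subst hI
      refine tendsto_const_nhds.congr fun S => ?_
      rw [if_pos rfl]
      simp only [g]
      rw [if_pos, h1]
      exact fun w _ h => w.isPrime.ne_top (top_le_iff.1 (Ideal.le_of_dvd h))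
    · rw [if_neg hI]
      by_cases hI0 : I = ⊥
      · subst hI0
        refine tendsto_const_nhds.congr fun S => ?_
        simp [g, h0]
      · obtain ⟨P, hP, hIP⟩ := Ideal.exists_le_maximal I hI
        let w : Sp k := ⟨P, hP.isPrime, fun h => hI0 (le_bot_iff.1 (h ▸ hIP))⟩
        refine tendsto_const_nhds.congr' ?_
        filter_upwards [eventually_ge_atTop {w}] with S hS
        simp only [g]
        rw [if_neg]
        exact fun h => h w (hS (Finset.mem_singleton_self w)) (Ideal.dvd_iff_le.2 hIP)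
  have hsv : Summable fun v : Sp k => ‖f v.asIdeal‖ := hs.comp_injective asIdeal_inj
  have hfv : Summable fun v : Sp k => f v.asIdeal := hsv.of_norm
  have hl := Complex.summable_log_one_add_of_summable hfv.neg
  have hne : ∀ v : Sp k, 1 + -f v.asIdeal ≠ 0 := fun v h => by
    have : f v.asIdeal = 1 := by linear_combination -h
    have h2 := hv v
    rw [this, norm_one] at h2
    norm_num at h2
  have hp := Complex.hasProd_of_hasSum_log hne hl.hasSum
  have key : (∑' I, f I) * Complex.exp (∑' v : Sp k, Complex.log (1 + -f v.asIdeal)) = 1 :=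
    tendsto_nhds_unique ((Tendsto.const_mul _ hp).congr fun S => (prod S).symm) lim
  refine ⟨left_ne_zero_of_mul_eq_one key, ?_⟩
  have e : Real.log ‖∑' I, f I‖ = -(∑' v : Sp k, Complex.log (1 + -f v.asIdeal)).re := by
    have := congrArg (fun z => Real.log ‖z‖) key
    simp only [norm_mul, Complex.norm_exp, norm_one, Real.log_one] at this
    rw [Real.log_mul (norm_ne_zero_iff.2 (left_ne_zero_of_mul_eq_one key)) (Real.exp_ne_zero _),
      Real.log_exp] at this
    linarith
  exact e

theorem dbl {ι : Type} (a : ι → ℝ) (h0 : ∀ v, 0 ≤ a v) (hs : Summable a)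
    (hv : ∀ v, a v ≤ 1 / 2) : Summable fun q : ι × ℕ => a q.1 ^ (q.2 + 1) := by
  have hg : Summable fun n : ℕ => (1 / 2 : ℝ) ^ n := summable_geometric_two
  have := hs.mul_of_nonneg hg h0 fun n => by positivity
  refine Summable.of_nonneg_of_le (fun q => pow_nonneg (h0 _) _) (fun q => ?_) this
  rw [pow_succ']
  exact mul_le_mul_of_nonneg_left (pow_le_pow_left₀ (h0 _) (hv _) _) (h0 _)

end EUX

theorem rowEUX : SEUX := by
  intro K _ _ f h1 h0 hm hs hv
  obtain ⟨hne, he⟩ := EUX.euler f h1 h0 hm hs hv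
  have hsv : Summable fun v : Sp K => ‖f v.asIdeal‖ := hs.comp_injective asIdeal_inj
  have hd := EUX.dbl (fun v : Sp K => ‖f v.asIdeal‖) (fun _ => norm_nonneg _) hsv hv
  refine ⟨hd, hne, ?_⟩
  have hc : Summable fun q : Sp K × ℕ => f q.1.asIdeal ^ (q.2 + 1) / ((q.2 : ℂ) + 1) := by
    refine hd.of_norm_bounded fun q => ?_
    rw [norm_div, norm_pow]
    refine div_le_self (by positivity) ?_
    have : ((q.2 : ℂ) + 1) = ((q.2 + 1 : ℕ) : ℂ) := by push_cast; rfl
    rw [this, Complex.norm_natCast]
    exact_mod_cast Nat.succ_le_succ (Nat.zero_le _)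
  have hv' : ∀ v : Sp K, HasSum (fun n : ℕ => f v.asIdeal ^ (n + 1) / ((n : ℂ) + 1))
      (-Complex.log (1 + -f v.asIdeal)) := fun v => by
    rw [← sub_eq_add_neg]
    exact Complex.hasSum_taylorSeries_neg_log' ((hv v).trans_lt (by norm_num))
  rw [he, hc.tsum_prod' fun v => (hv' v).summable, tsum_congr fun v => (hv' v).tsum_eq, tsum_neg,
    Complex.neg_re]

end Pool.Agent.MP_1246c0_nt.H25
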