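import Pool.Agent.MP_1246c0_nt.H25.SpecR

/-! Failure in large degree. -/

namespace Pool.Agent.MP_1246c0_nt.H25

open Polynomial Finset Matrix
open Pool.Agent.MP_1246c0_nt.H12

namespace HDO

variable {ι K : Type} [Fintype ι] [DecidableEq ι] [Field K] [Algebra F2 K]

/-- the chain defined by a functional -/
def ch (s : K) (g : ι → K) (lam : K →ₗ[F2] F2) (j : ℕ) : ι → F2 := fun l => lam (s ^ j * g l)

theorem ch_spec {S : Matrix ι ι F2} {e : ι → F2} {P O : Finset ι} {s : K} {g : ι → K}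
    (h : Slo S e P O false (LinearMap.mulLeft F2 s) g) (lam : K →ₗ[F2] F2) (j : ℕ) :
    S *ᵥ ch s g lam j = pto P O (ch s g lam (j + 1)) ∧ dot univ e (ch s g lam j) = 0 := by
  have hx : xv P false (LinearMap.mulLeft F2 s) g = g := funext fun l => by simp [xv]
  obtain ⟨h1, h2⟩ := h
  rw [hx] at h1 h2
  refine ⟨funext fun l => ?_, ?_⟩
  · have e1 : (S *ᵥ ch s g lam j) l = lam (s ^ j * ap S g l) := by
      simp only [mulVec, dotProduct, ch, ap, Finset.mul_sum, map_sum, mul_smul_comm, map_smul,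
        smul_eq_mul]
    rw [e1, h1, rvo, pto]
    split_ifs with a b
    · exact b.elim
    · simp only [LinearMap.mulLeft_apply, ← mul_assoc, ← pow_succ, mul_add, mul_smul_comm, map_add,
        map_smul, smul_eq_mul, ch, Finset.mul_sum, map_sum]
    · rw [mul_zero, map_zero]
  · have e1 : dot univ e (ch s g lam j) = lam (s ^ j * ∑ l, e l • g l) := by
      simp only [dot, ch, Finset.mul_sum, map_sum, mul_smul_comm, map_smul, smul_eq_mul]
    rw [e1, h2, mul_zero, map_zero]

omit [Fintype ι] in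
theorem pt_zero {P O : Finset ι} (hO : O ⊆ P) (ho : Even O.card) {y : ι → F2}
    (h : pto P O y = 0) : ∀ l ∈ P, y l = 0 := by
  have h1 : ∀ l ∈ P, y l = -∑ l' ∈ O, y l' := fun l hl => by
    have := congrFun h l
    rw [pto, if_pos hl] at this
    exact eq_neg_of_add_eq_zero_left this
  have h3 : ∑ l' ∈ O, y l' = 0 := by
    rw [Finset.sum_congr rfl fun l hl => h1 l (hO hl), Finset.sum_const, nsmul_eq_mul,
      (ZMod.natCast_eq_zero_iff_even).2 ho, zero_mul]
  exact fun l hl => by rw [h1 l hl, h3, neg_zero]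

theorem eq_zero_of_mul {lam : K →ₗ[F2] F2} {x : K} (hx : x ≠ 0) (h : ∀ w, lam (w * x) = 0) :
    lam = 0 := LinearMap.ext fun w => by rw [← div_mul_cancel₀ w hx]; exact h _

theorem det {S : Matrix ι ι F2} {e : ι → F2} {F P O : Finset ι} (pb : PowerBasis F2 K)
    {g : ι → K} (hF : F ⊆ P) (hO : O ⊆ P) (ho : Even O.card) (hg : g ≠ 0)
    (h : Slo S e P O false (LinearMap.mulLeft F2 pb.gen) g) :
    NGo S e F P O ∨ (pb.dim ≤ F.card ∧ 2 ^ pb.dim - 1 ≤ GTo S e F P O pb.dim) := by
  classical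
  refine or_iff_not_imp_left.2 fun hn => ?_
  have hs := ch_spec h
  have key : ∀ lam : K →ₗ[F2] F2, (∀ l ∈ F, lam (g l) = 0) → lam = 0 := fun lam hl => by
    have h1 : ∀ j, (∀ l ∈ F, ch pb.gen g lam j l = 0) → ch pb.gen g lam j = 0 := fun j hj => by
      by_contra h0
      exact hn ⟨fun i => ch pb.gen g lam (j + i), h0, hj, fun i => hs lam (j + i)⟩
    have h2 : ∀ j, ch pb.gen g lam j = 0 := fun j => by
      induction j with
      | zero => exact h1 0 fun l a => by rw [ch, pow_zero, one_mul, hl l a]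
      | succ j ih =>
        exact h1 _ fun l a => pt_zero hO ho (by rw [← (hs lam j).1, ih, mulVec_zero]) l (hF a)
    obtain ⟨l, hl⟩ := Function.ne_iff.1 hg
    refine eq_zero_of_mul hl fun w => ?_
    rw [← pb.basis.sum_repr w, Finset.sum_mul, map_sum]
    refine Finset.sum_eq_zero fun i _ => ?_
    rw [smul_mul_assoc, map_smul, pb.basis_eq_pow]
    exact smul_eq_zero_of_right _ (congrFun (h2 i) l)
  have idp : ∀ lam : K →ₗ[F2] F2, lam ≠ 0 →
      Idp F fun i : Fin pb.dim => ch pb.gen g lam i := fun lam h0 a ha => by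
    by_contra h1
    have h2 : ∑ i, a i • pb.basis i ≠ 0 := fun h2 =>
      h1 (funext (Fintype.linearIndependent_iff.1 pb.basis.linearIndependent a h2))
    have h3 := key (lam ∘ₗ LinearMap.mulLeft F2 (∑ i, a i • pb.basis i)) fun l hl => by
      rw [← ha l hl]
      simp only [LinearMap.comp_apply, LinearMap.mulLeft_apply, Finset.sum_mul, map_sum,
        smul_mul_assoc, map_smul, smul_eq_mul, pb.basis_eq_pow, ch]
    exact h0 (eq_zero_of_mul h2 fun w => by rw [mul_comm]; exact LinearMap.congr_fun h3 w)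
  have d0 := pb.dim_pos
  let E := pb.basis.constr (M' := F2) F2
  constructor
  · have h1 : E 1 ≠ 0 := fun h => one_ne_zero (congrFun (E.map_eq_zero_iff.1 h) ⟨0, d0⟩)
    have h2 := Fintype.card_le_of_injective
      (fun (a : Fin pb.dim → F2) (l : F) => ∑ i, a i * ch pb.gen g (E 1) i l) fun a a' h =>
        sub_eq_zero.1 (idp _ h1 (a - a') fun l hl => by
          simp only [Pi.sub_apply, sub_mul, Finset.sum_sub_distrib]
          exact sub_eq_zero.2 (congrFun h ⟨l, hl⟩))
    simp only [Fintype.card_fun, ZMod.card, Fintype.card_fin, Fintype.card_coe] at h2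
    exact (Nat.pow_le_pow_iff_right one_lt_two).1 h2
  · have h1 : Nat.card {c : Fin pb.dim → F2 | c ≠ 0} = 2 ^ pb.dim - 1 := by
      rw [Nat.card_eq_fintype_card, Set.card_ne_eq]
      simp
    rw [← h1]
    refine Nat.card_le_card_of_injective (fun c => ⟨(fun i => ch pb.gen g (E c.1) i,
      fun i => pb.basis.repr (pb.gen ^ pb.dim) i), idp _ (E.map_ne_zero_iff.2 c.2),
        fun j => (hs _ j).2, fun j => (hs _ j).1.trans (congrArg _ ?_)⟩) fun c c' hc => ?_
    · rw [nxt]
      split_ifs with a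
      · rfl
      · funext l
        rw [show j.val + 1 = pb.dim by omega, ch]
        conv_lhs => rw [← pb.basis.sum_repr (pb.gen ^ pb.dim)]
        simp only [Finset.sum_mul, map_sum, smul_mul_assoc, map_smul, pb.basis_eq_pow,
          Finset.sum_apply, Pi.smul_apply, ch]
    · have h2 := congrFun (congrArg (fun q => q.1.1) hc) ⟨0, d0⟩
      refine Subtype.ext (E.injective (sub_eq_zero.1 (key _ fun l _ => ?_)))
      have h3 := congrFun h2 l
      simp only [ch, pow_zero, one_mul] at h3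
      rw [LinearMap.sub_apply, h3, sub_self]

theorem point {S : Matrix ι ι F2} {e : ι → F2} {F P O : Finset ι} (hF : F ⊆ P)
    (hO : O ⊆ P) (ho : Even O.card) (k : ℕ) :
    ind (Bdo S e P O (k + 2)) ≤ ind (NGo S e F P O)
      + ∑ f ∈ Icc (k + 2) F.card, 2 / 2 ^ f * (GTo S e F P O f : ℝ) := by
  have n0 : ∀ q, 0 ≤ ind q := fun q => by unfold ind; split_ifs <;> norm_num
  have n1 : ∀ f ∈ Icc (k + 2) F.card, 0 ≤ 2 / 2 ^ f * (GTo S e F P O f : ℝ) := fun f _ => by
    positivity
  by_cases hb : Bdo S e P O (k + 2)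
  · rw [ind, if_pos hb]
    obtain ⟨p, hp, hd, g, hg, hs⟩ := hb
    have := Fact.mk hp
    rcases det (AdjoinRoot.powerBasis hp.ne_zero) hF hO ho hg hs with h | ⟨h1, h2⟩
    · rw [ind, if_pos h]
      exact le_add_of_nonneg_right (Finset.sum_nonneg n1)
    · rw [AdjoinRoot.powerBasis_dim] at h1 h2
      refine le_add_of_nonneg_of_le (n0 _)
        (le_trans ?_ (Finset.single_le_sum n1 (mem_Icc.2 ⟨hd, h1⟩)))
      have h3 : 2 ≤ 2 ^ p.natDegree := Nat.le_self_pow (by omega) 2
      have h4 : 2 ^ p.natDegree ≤ 2 * GTo S e F P O p.natDegree := by omega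
      rw [div_mul_eq_mul_div, one_le_div (by positivity)]
      exact_mod_cast h4
  · rw [ind, if_neg hb]
    exact add_nonneg (n0 _) (Finset.sum_nonneg n1)

end HDO

theorem rowHDO : OfHDO := by
  intro hA hG hN ι _ _ S e B P O m z k κ hO ho hm hK
  refine (hA.mono _ _ _ _ fun H _ => HDO.point (F := P ∩ B) inter_subset_left ho.sub ho.ev k).trans
    ?_
  rw [hA.add, hA.sum, add_mul, add_div, add_comm, one_mul]
  refine add_le_add ?_ (hN ι S e B P O m z k κ hO ho hm hK)
  have h1 : ∀ f ∈ Icc (k + 2) (P ∩ B).card,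
      Ex (Hs i2 B (P ∩ B)) (fun H => 2 / 2 ^ f * (GTo (S + H) e (P ∩ B) P O f : ℝ))
        ≤ 2 ^ (κ + 2 * z + 2) / 2 ^ k := fun f hf => by
    rw [hA.mul]
    refine (mul_le_mul_of_nonneg_left (hG ι S e B P O m z k f hO ho hm (mem_Icc.1 hf).1)
      (by positivity)).trans ?_
    rw [← mul_div_assoc, show (2 : ℝ) / 2 ^ f * 2 ^ (z + 1 + f) = 2 ^ (z + 2) by
      field_simp; ring]
    exact div_le_div_of_nonneg_right (pow_le_pow_right₀ one_le_two (by omega)) (by positivity)
  refine (Finset.sum_le_card_nsmul _ _ _ h1).trans ?_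
  rw [nsmul_eq_mul, mul_div_assoc]
  refine mul_le_mul_of_nonneg_right ?_ (by positivity)
  rw [Nat.card_Icc]
  exact_mod_cast (by omega)

end Pool.Agent.MP_1246c0_nt.H25
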