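import Pool.Agent.MP_1246c0_nt.H25.SpecC

/-! The right kernel solves the primal system. -/

namespace Pool.Agent.MP_1246c0_nt.H25

open Finset Matrix Pool.Agent.MP_db5b97_nt.H85
open Pool.Agent.MP_1246c0_nt.H12

namespace US

variable {ℓ : ℕ}

/-- reduction of vectors -/
def rd (ℓ : ℕ) : (Fin ℓ → ℤ) →+ Vb ℓ := (Int.castAddHom F2).compLeft (Fin ℓ)

theorem rd_surj : Function.Surjective (rd ℓ) := fun x => by
  choose y hy using fun i => ZMod.intCast_surjective (x i)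
  exact ⟨y, funext hy⟩

theorem rd_two (y : Fin ℓ → ℤ) : rd ℓ (2 • y) = 0 :=
  funext fun i => (ZMod.intCast_zmod_eq_zero_iff_dvd _ 2).2 ⟨y i, nsmul_eq_mul _ _⟩

theorem rd_zero {y : Fin ℓ → ℤ} (h : rd ℓ y = 0) : ∃ z : Fin ℓ → ℤ, y = 2 • z := by
  choose z hz using fun i => (ZMod.intCast_zmod_eq_zero_iff_dvd (y i) 2).1 (congrFun h i)
  exact ⟨z, funext fun i => (hz i).trans (nsmul_eq_mul 2 (z i)).symm⟩

theorem rd_bar (g : Matrix (Fin ℓ) (Fin ℓ) ℤ) (y : Fin ℓ → ℤ) :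
    rd ℓ (toLin' g y) = bar g *ᵥ rd ℓ y :=
  funext fun i => RingHom.map_mulVec (Int.castRingHom (ZMod 2)) g y i

theorem rd_pow (g : Matrix (Fin ℓ) (Fin ℓ) ℤ) (k : ℕ) (y : Fin ℓ → ℤ) :
    rd ℓ ((toLin' g ^ k) y) = bar g ^ k *ᵥ rd ℓ y := by
  induction k with
  | zero => simp
  | succ k ih => rw [pow_succ', pow_succ', Module.End.mul_apply, rd_bar, ih, mulVec_mulVec]

theorem rd_acn (g : Matrix (Fin ℓ) (Fin ℓ) ℤ) (d n : ℕ) (h : Ga) (y : Fin ℓ → ℤ) :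
    rd ℓ (acn d n (toLin' g) h y) = bar g ^ (kap n h).val *ᵥ rd ℓ y := by
  rw [acn, Module.End.mul_apply, ← rd_pow]
  rcases neg_one_pow_eq_or (Module.End ℤ (Fin ℓ → ℤ)) (chi d h).val with e | e <;> rw [e]
  · rfl
  · rw [LinearMap.neg_apply, Module.End.one_apply, map_neg]
    exact funext fun i => ZMod.neg_eq_self_mod_two _

theorem rd_dot (w : Vb ℓ) (y : Fin ℓ → ℤ) : ((lf w ⬝ᵥ y : ℤ) : F2) = w ⬝ᵥ rd ℓ y := by
  simp only [dotProduct, Int.cast_sum, Int.cast_mul, lf, Int.cast_natCast, ZMod.natCast_zmod_val]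
  rfl

theorem dual (A : Mb ℓ) (x : Vb ℓ) (h : ∀ w, w ᵥ* A = w → w ⬝ᵥ x = 0) : ∃ y, x = y - A *ᵥ y := by
  by_contra hn
  obtain ⟨f, f1, f2⟩ := Submodule.exists_le_ker_of_notMem
    (p := LinearMap.range (toLin' (1 - A))) (v := x) fun ⟨y, hy⟩ =>
      hn ⟨y, by rw [← hy, toLin'_apply, sub_mulVec, one_mulVec]⟩
  have e : ∀ y, f y = (fun i => f fun j => if i = j then 1 else 0) ⬝ᵥ y := fun y => by
    rw [f.pi_apply_eq_sum_univ, dotProduct_comm]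
    rfl
  refine f1 ((e x).trans (h _ (dotProduct_eq _ _ fun y => ?_)))
  have := f2 (LinearMap.mem_range_self _ y)
  rw [LinearMap.mem_ker, toLin'_apply, sub_mulVec, one_mulVec, map_sub, sub_eq_zero] at this
  rw [← dotProduct_mulVec, ← e, ← e, this]

theorem ro {g : Matrix (Fin ℓ) (Fin ℓ) ℤ} {d n : ℕ} {ψ : Ga → Fin ℓ → ℤ} {p : Ga × Ga}
    (h1 : Eo d n (toLin' g) ψ p ∈ Mu _ 1) (h2 : ∀ w : Vb ℓ, w ᵥ* bar g ^ (kap n p.1).val = w →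
      (2 : ℤ) ^ (1 + 1) ∣ lf w ⬝ᵥ Eo d n (toLin' g) ψ p) : Ro d n (toLin' g) ψ p := by
  obtain ⟨e, he⟩ := mem_Mu.1 h1
  obtain ⟨y', hy⟩ := dual (bar g ^ (kap n p.1).val) (rd ℓ e) fun w hw => by
    have := h2 w hw
    rw [← he, dotProduct_smul, pow_one, pow_succ, pow_one, nsmul_eq_mul] at this
    rw [← rd_dot]
    exact (ZMod.intCast_zmod_eq_zero_iff_dvd _ 2).2 (Int.dvd_of_mul_dvd_mul_left two_ne_zero this)
  obtain ⟨y, rfl⟩ := rd_surj y'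
  obtain ⟨z, hz⟩ := rd_zero (y := e - (y - acn d n (toLin' g) p.1 y))
    (by rw [map_sub, map_sub, rd_acn, hy, sub_self])
  exact ⟨y, mem_Mu.2 ⟨z, by rw [← he, pow_one, ← smul_sub, hz, smul_smul, sq]⟩⟩

theorem comm {g s : Matrix (Fin ℓ) (Fin ℓ) ℤ}
    (h : ∀ x, toLin' g (toLin' s x) - toLin' s (toLin' g x) ∈ Mu _ 2) : Commute (bar g) (bar s) :=
  Matrix.ext_iff_mulVec.2 fun x => by
    obtain ⟨y, rfl⟩ := rd_surj x
    obtain ⟨z, hz⟩ := mem_Mu.1 (h y)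
    rw [← mulVec_mulVec, ← mulVec_mulVec, ← rd_bar, ← rd_bar, ← rd_bar, ← rd_bar, ← sub_eq_zero,
      ← map_sub, ← hz, sq, mul_smul, rd_two]

theorem test {ι : Type} [Fintype ι] [DecidableEq ι] (Φ : Frm) (μ : Md ℓ) (pr : ι → ℕ) (P : ℕ)
    (ρ : Option ι ⊕ Bool) (w : Vb ℓ) (ψ : Ga → Fin ℓ → ℤ) : Pw Φ μ pr P (Pi.single ρ w) ψ
      = lf w ⬝ᵥ Eo (dd pr P) μ.n (toLin' μ.g) ψ (rws Φ pr P ρ) := by
  rw [Pw, sum_eq_single ρ (fun b _ hb => ?_) (by simp), Pi.single_eq_same]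
  rw [Pi.single_eq_of_ne hb, show lf (0 : Vb ℓ) = 0 from rfl, zero_dotProduct]

end US

open US in
theorem rowUS : OfUS := by
  intro _ hC hP hF ι Λ _ _ _ ℓ S μ pr P J i1 st au g φ M' hA hL hμ hG hφ hM v hv
  obtain ⟨⟨ψ, hψ, rfl⟩, hv⟩ := hv
  have h2 := hμ.two
  have hle := hμ.le
  let _ : Module Λ (Vb ℓ) := Module.compHom (Vb ℓ) φ
  have sm : ∀ (h : Λ) (x : Vb ℓ), h • x = φ h *ᵥ x := fun _ _ => rfl
  have cm : ∀ s : Mb ℓ, Commute (bar μ.g) s → ∀ h, Commute (φ h) s := fun s hs h => by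
    obtain ⟨f, rfl⟩ := hG.bij.2 h
    rw [cv, map_sum]
    refine Commute.sum_left _ _ _ fun k _ => ?_
    rw [map_mul, map_natCast, map_pow, hφ]
    exact (Nat.cast_commute _ _).mul_left (hs.pow_left _)
  let E : (s : Mb ℓ) → Commute (bar μ.g) s → Module.End Λ (Vb ℓ) := fun s hs =>
    { toFun := fun x => s *ᵥ x
      map_add' := mulVec_add s
      map_smul' := fun h x => by
        rw [RingHom.id_apply, sm, sm, mulVec_mulVec, mulVec_mulVec, (cm s hs h).eq] }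
  have F := hF ι _ Λ (Vb ℓ) S pr P μ.n μ.n μ.a i1 _ _ _ ψ st au g (rd ℓ) (E _ (comm hμ.adm.ts))
    (E _ (comm hμ.adm.tu)) M' hA hL hμ.adm (by omega) le_rfl hG
    ⟨rd_surj, rd_two, fun x => by rw [sm, hφ, rd_bar], rd_bar _, rd_bar _⟩ hM hψ
  have hd : Ad (toLin' μ.g) μ.n (Mu _ 1) := (hC.adm _ _ _ _ _ hμ.adm).1 1 _ (by omega)
  have key : ∀ ρ : Option ι ⊕ Bool, ρ ≠ .inl (some i1) → ρ ≠ .inl none → ρ ≠ .inr true →
      Eo (dd pr P) μ.n (toLin' μ.g) ψ (rws S.Φ pr P ρ) ∈ Mu _ 1 →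
      Ro (dd pr P) μ.n (toLin' μ.g) ψ (rws S.Φ pr P ρ) := fun ρ r1 r2 r3 h => ro h fun w hw => by
    have hw1 : Pi.single ρ w ∈ Ws S.Φ μ pr P i1 1 := by
      refine (hP.one ι ℓ S.Φ μ pr P i1 _ hA.one hL).1.2 ⟨Pi.single_eq_of_ne r1.symm _,
        fun _ => Pi.single_eq_of_ne r2.symm _, fun o => ?_, fun _ => ?_, fun _ => ?_⟩
      · by_cases e : Sum.inl o = ρ
        · subst e
          rw [Pi.single_eq_same]
          exact hw
        · rw [Pi.single_eq_of_ne e, zero_vecMul]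
      · rw [Pi.single_eq_of_ne r3.symm, zero_vecMul]
      · rw [Pi.single_eq_of_ne r3.symm]
        exact zero_mem _
    rw [← test]
    exact (hP.val ι ℓ S.Φ μ pr P J 1 i1 _ ψ hA.one hL hμ le_rfl (by omega) hw1 hψ).1 (hv _ hw1)
  refine ⟨rd ℓ (ψ (S.Φ.fr 2)), fun l hl => ?_, F.inf (key (.inr false) (by simp) (by simp)
    (by simp) (hC.inf _ _ _ _ _ _ _ _ hA.one hd hψ))⟩
  have r := F.row l (key (.inl (some l)) (by simpa using hl) (by simp) (by simp)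
    (hC.odd _ _ _ _ _ _ _ _ _ hA.one hd hψ (hL.odd l)
      (((hC.lab ι S.Φ pr P i1 hA.one hL).2.2.2.2.2.2.2.2.2.2.2.2 _ (hL.odd l).1).2
        (Or.inr (Or.inl ⟨l, rfl⟩)))))
  rw [← Nat.cast_smul_eq_nsmul F2, ZMod.natCast_zmod_val] at r
  simp only [rlP, vo, ← mulVec_mulVec]
  exact r

end Pool.Agent.MP_1246c0_nt.H25
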